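import Mathlib
import Pool.Agent.KS6_82.ProdSL

/-!
# Weakly geodesically automatic groups that are ShortLex-automatic for no order: products

Let `(G, A)` be weakly geodesically automatic but ShortLex-automatic for no order on `A`. Then for
every weakly geodesically automatic `(H, B)` the direct product `G × H` with the generating set
`{(a, 1)} ∪ {(1, b)}` has the same two properties. So every weakly geodesically automatic group is a
direct factor of such a group. The products with the cyclic groups of prime order are pairwise
non-isomorphic.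
-/

set_option autoImplicit false

namespace Pool.Agent.Results.MP_3489e4_al.ProductClosure

/-- The padded pair `(u, v)`: the two words are read in parallel, and the shorter one is padded
at the end with the new symbol `none`. -/
def padPair {α : Type} (u v : List α) : List (Option α × Option α) :=
  List.ofFn (fun i : Fin (max u.length v.length) => (u[(i : ℕ)]?, v[(i : ℕ)]?))

/-- The element of `G` represented by a word over the finite subset `A` of `G`. -/
def wordVal {G : Type} [Group G] {A : Finset G} (w : List A) : G :=
  (w.map (fun a : A => (a : G))).prod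

/-- `L` is the language of an automatic structure on `G` over `A`: `L` is regular, every element
of `G` is represented by a word of `L`, and for each `x ∈ A ∪ {1}` the set of padded pairs
`(u, v)` of words of `L` with `u x = v` in `G` is accepted by a finite automaton. -/
def IsAutomaticStructure {G : Type} [Group G] (A : Finset G) (L : Language A) : Prop :=
  L.IsRegular ∧ (∀ g : G, ∃ w ∈ L, wordVal w = g) ∧
  ∀ x : G, x = 1 ∨ x ∈ A →
    Language.IsRegular ({p | ∃ u ∈ L, ∃ v ∈ L, wordVal u * x = wordVal v ∧ p = padPair u v} :
      Language (Option A × Option A))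

/-- A word over `A` is geodesic if no word over `A` with the same value is shorter. -/
def IsGeodesic {G : Type} [Group G] {A : Finset G} (w : List A) : Prop :=
  ∀ v : List A, wordVal v = wordVal w → w.length ≤ v.length

/-- `G` is weakly geodesically automatic with respect to the inverse-closed generating set `A`:
some automatic structure over `A` consists of geodesic words. -/
def WeaklyGeodesicallyAutomatic {G : Type} [Group G] (A : Finset G) : Prop :=
  (∀ a ∈ A, a⁻¹ ∈ A) ∧ Subgroup.closure (A : Set G) = ⊤ ∧
  ∃ L : Language A, IsAutomaticStructure A L ∧ ∀ w ∈ L, IsGeodesic w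

/-- The words over `A` that are ShortLex-least among all words with the same value, for the
total order `r` on `A`. -/
def ShortLexLanguage {G : Type} [Group G] (A : Finset G) (r : LinearOrder A) : Language A :=
  {w | ∀ v : List A, wordVal v = wordVal w → v ≠ w → List.Shortlex r.lt w v}

/-- `G` is weakly geodesically automatic with respect to `A`, but for no total order on `A` is it
ShortLex-automatic with respect to `A`. -/
def WeaklyGeodesicNotShortLex {G : Type} [Group G] (A : Finset G) : Prop :=
  WeaklyGeodesicallyAutomatic A ∧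
  ∀ r : LinearOrder A, ¬ IsAutomaticStructure A (ShortLexLanguage A r)

open Classical in
/-- The generating set `{(a, 1) | a ∈ A} ∪ {(1, b) | b ∈ B}` of `G × H`. -/
noncomputable def prodGen {G H : Type} [Group G] [Group H] (A : Finset G) (B : Finset H) :
    Finset (G × H) :=
  A.image (fun a => (a, 1)) ∪ B.image (fun b => (1, b))

open Pool.Agent.Results.MP_3489e4_al in
theorem wga_iff {G : Type} [Group G] (A : Finset G) : WeaklyGeodesicallyAutomatic A ↔
    (∀ a ∈ A, a⁻¹ ∈ A) ∧ WeakGeoNotShortLex.WeaklyGeodesicallyAutomatic A :=
  ⟨fun h => ⟨h.1, h.2.2⟩, fun h => ⟨h.1, Pool.Agent.KS6_82.ProdSL.closure_of_wga h.2, h.2⟩⟩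

theorem prod_mem {G H : Type} [Group G] [Group H] (A : Finset G) (B : Finset H)
    (hA : WeaklyGeodesicNotShortLex A) (hB : WeaklyGeodesicallyAutomatic B) :
    WeaklyGeodesicNotShortLex (prodGen A B) := by
  refine ⟨(wga_iff _).2 ⟨Pool.Agent.KS6_82.ProdSL.prodGen_inv hA.1.1 hB.1,
    Pool.Agent.KS6_82.ProdSL.wga_prod hA.1.1 ((wga_iff A).1 hA.1).2 ((wga_iff B).1 hB).2⟩, ?_⟩
  intro r h
  exact hA.2 _ (Pool.Agent.KS6_82.ProdSL.shortLex_restrict r h)

/-! ### Finite groups -/

theorem regular_of_finite {α : Type} {L : Language α} (h : Set.Finite {w | w ∈ L}) :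
    L.IsRegular := by
  classical
  apply Language.IsRegular.of_finite_range_leftQuotient
  have hp : Set.Finite {s : List α | ∃ w ∈ L, s <+: w} := by
    have : {s : List α | ∃ w ∈ L, s <+: w} ⊆ ⋃ w ∈ {w | w ∈ L}, {s | s ∈ w.inits} := by
      rintro s ⟨w, hw, hs⟩
      simp only [Set.mem_iUnion]
      exact ⟨w, hw, (List.mem_inits _ _).2 hs⟩
    exact (h.biUnion fun w _ => List.finite_toSet _).subset this
  apply Set.Finite.subset ((hp.image L.leftQuotient).insert 0)
  rintro _ ⟨s, rfl⟩
  by_cases hs : ∃ w ∈ L, s <+: w
  · right; exact ⟨s, hs, rfl⟩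
  · left
    ext w
    constructor
    · intro hw; exact absurd ⟨s ++ w, hw, List.prefix_append s w⟩ hs
    · intro hw; exact absurd hw (Language.notMem_zero w)

theorem wga_finite (H : Type) [Group H] [Fintype H] :
    WeaklyGeodesicallyAutomatic (Finset.univ : Finset H) := by
  classical
  have hL : Set.Finite {w : List (Finset.univ : Finset H) | w.length ≤ 1 ∧ IsGeodesic w} :=
    (List.finite_length_le _ 1).subset fun w hw => hw.1
  refine ⟨fun a _ => Finset.mem_univ _, by simp, {w | w.length ≤ 1 ∧ IsGeodesic w},
    ⟨regular_of_finite hL, ?_, ?_⟩, fun w hw => hw.2⟩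
  · intro g
    by_cases hg : g = 1
    · subst hg
      exact ⟨[], ⟨by simp, fun v _ => by simp⟩, by simp [wordVal]⟩
    · refine ⟨[⟨g, Finset.mem_univ g⟩], ⟨by simp, fun v hv => ?_⟩, by simp [wordVal]⟩
      rcases v with _ | ⟨a, v⟩
      · exact absurd (by simpa [wordVal] using hv.symm) hg
      · simp
  · intro x _
    apply regular_of_finite
    refine (Set.Finite.image2 padPair hL hL).subset ?_
    rintro p ⟨u, hu, v, hv, -, rfl⟩
    exact ⟨u, hu, v, hv, rfl⟩

/-! ### Counting homomorphisms -/

theorem finite_hom {G : Type} [Group G] (A : Finset G) (hA : Subgroup.closure (A : Set G) = ⊤)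
    (C : Type) [Group C] [Finite C] : Finite (G →* C) := by
  apply Finite.of_injective (β := A → C) (fun f a => f a)
  intro f f' h
  apply MonoidHom.eq_of_eqOn_dense hA
  intro a ha
  exact congrFun h ⟨a, ha⟩

theorem card_hom_prod (G H C : Type) [Group G] [Group H] [CommGroup C] :
    Nat.card (G × H →* C) = Nat.card (G →* C) * Nat.card (H →* C) := by
  rw [← Nat.card_prod]
  apply Nat.card_congr
  exact
    { toFun := fun f => (f.comp (MonoidHom.inl G H), f.comp (MonoidHom.inr G H))
      invFun := fun f => f.1.coprod f.2
      left_inv := fun f => by simp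
      right_inv := fun f => by ext <;> simp }

theorem eq_of_iso {G : Type} [Group G] (A : Finset G) (hA : Subgroup.closure (A : Set G) = ⊤)
    (p q : ℕ) (hp : p.Prime) (hq : q.Prime)
    (h : Nonempty (G × Multiplicative (ZMod p) ≃* G × Multiplicative (ZMod q))) : p = q := by
  obtain ⟨e⟩ := h
  have : Fact p.Prime := ⟨hp⟩
  have : Fact q.Prime := ⟨hq⟩
  by_contra hne
  have := finite_hom A hA (Multiplicative (ZMod p))
  have h1 := card_hom_prod G (Multiplicative (ZMod p)) (Multiplicative (ZMod p))
  have h2 := card_hom_prod G (Multiplicative (ZMod q)) (Multiplicative (ZMod p))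
  have h3 : Nat.card (G × Multiplicative (ZMod p) →* Multiplicative (ZMod p)) =
      Nat.card (G × Multiplicative (ZMod q) →* Multiplicative (ZMod p)) :=
    Nat.card_congr (e.monoidHomCongrLeft).toEquiv
  have h4 : 0 < Nat.card (G →* Multiplicative (ZMod p)) := Nat.card_pos
  rw [h1, h2] at h3
  have h5 := Nat.eq_of_mul_eq_mul_left h4 h3
  have h6 : Nat.card (Multiplicative (ZMod q) →* Multiplicative (ZMod p)) = 1 := by
    have : Subsingleton (Multiplicative (ZMod q) →* Multiplicative (ZMod p)) := by
      constructor
      intro f f'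
      have key : ∀ g : Multiplicative (ZMod q) →* Multiplicative (ZMod p), ∀ x, g x = 1 := by
        intro g x
        rw [← orderOf_eq_one_iff]
        have a1 : orderOf (g x) ∣ p := by
          have := orderOf_dvd_natCard (g x)
          rwa [Nat.card_congr Multiplicative.toAdd, Nat.card_zmod] at this
        have a2 : orderOf (g x) ∣ q := by
          have := (orderOf_map_dvd g x).trans (orderOf_dvd_natCard x)
          rwa [Nat.card_congr Multiplicative.toAdd, Nat.card_zmod] at this
        exact Nat.eq_one_of_dvd_coprimes ((Nat.coprime_primes hp hq).2 hne) a1 a2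
      refine MonoidHom.ext fun x => ?_
      rw [key, key]
    exact Nat.card_unique
  have : Finite (Multiplicative (ZMod p) →* Multiplicative (ZMod p)) :=
    Finite.of_injective (β := Multiplicative (ZMod p) → Multiplicative (ZMod p))
      (fun f => f) DFunLike.coe_injective
  have h7 : 1 < Nat.card (Multiplicative (ZMod p) →* Multiplicative (ZMod p)) := by
    rw [Finite.one_lt_card_iff_nontrivial]
    refine ⟨⟨MonoidHom.id _, 1, ?_⟩⟩
    intro h
    have := DFunLike.congr_fun h (Multiplicative.ofAdd (1 : ZMod p))
    simp at this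
  omega

/-- (1) There is a weakly geodesically automatic group that is ShortLex-automatic for no order.
(2) If `(G, A)` is one and `(H, B)` is any weakly geodesically automatic group, then the direct
product `G × H` with the generators `(a, 1)` and `(1, b)` is another one.
(3) There are infinitely many pairwise non-isomorphic ones. -/
theorem result :
    (∃ (G : Type) (_ : Group G) (A : Finset G), WeaklyGeodesicNotShortLex A) ∧
    (∀ (G H : Type) [Group G] [Group H] (A : Finset G) (B : Finset H),
      WeaklyGeodesicNotShortLex A → WeaklyGeodesicallyAutomatic B →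
        WeaklyGeodesicNotShortLex (prodGen A B)) ∧
    ∃ (P : ℕ → Type) (_ : ∀ n, Group (P n)) (S : ∀ n, Finset (P n)),
      (∀ n, WeaklyGeodesicNotShortLex (S n)) ∧ ∀ m n, Nonempty (P m ≃* P n) → m = n := by
  have h1 : ∃ (G : Type) (_ : Group G) (A : Finset G), WeaklyGeodesicNotShortLex A := by
    obtain ⟨G, i, A, h1, h2, h3, h4⟩ :=
      Pool.Agent.Results.MP_3489e4_al.WeakGeoNotShortLex.result
    exact ⟨G, i, A, (wga_iff A).2 ⟨h1, h3⟩, h4⟩
  refine ⟨h1, fun G H _ _ A B => prod_mem A B, ?_⟩
  obtain ⟨G, i, A, hA⟩ := h1
  have : ∀ n : ℕ, Fact (Nat.nth Nat.Prime n).Prime := fun n => ⟨Nat.prime_nth_prime n⟩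
  refine ⟨fun n => G × Multiplicative (ZMod (Nat.nth Nat.Prime n)), fun n => inferInstance,
    fun n => prodGen A (Finset.univ : Finset (Multiplicative (ZMod (Nat.nth Nat.Prime n)))),
    fun n => prod_mem _ _ hA (wga_finite _), ?_⟩
  intro m n h
  have := eq_of_iso A hA.1.2.1 _ _ (Nat.prime_nth_prime m) (Nat.prime_nth_prime n) h
  exact Nat.nth_injective Nat.infinite_setOfPred_prime this

end Pool.Agent.Results.MP_3489e4_al.ProductClosure
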